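import Pool.Agent.Helper51.GT.Defs

/-!
# Module GRP of gt_mods (MP_97687e_co): the finite group and the elements `t`
-/

set_option autoImplicit false

namespace Pool.Agent.Helper51.GT

open Polynomial

variable {K : Type} [Field K]

/-- the map from matrices of polynomials to matrices of power series -/
noncomputable def grp_Phi (K : Type) [Field K] : Mat K →+* PMat K :=
  (Polynomial.coeToPowerSeries.ringHom (R := K)).mapMatrix

theorem grp_Phi_coeff (M : Mat K) (i j : Fin 4) (s : ℕ) :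
    PowerSeries.coeff s (grp_Phi K M i j) = (M i j).coeff s := by
  simp [grp_Phi]

theorem grp_unit (K : Type) [Field K] : IsUnit (1 + PowerSeries.X : PowerSeries K) := by
  rw [PowerSeries.isUnit_iff_constantCoeff]
  simp

/-- the unit `1 + X` -/
noncomputable def grp_e (K : Type) [Field K] : (PowerSeries K)ˣ := (grp_unit K).unit

theorem grp_e_val : (grp_e K : PowerSeries K) = 1 + PowerSeries.X := (grp_unit K).unit_spec

theorem grp_Phi_smul (p : K[X]) (M : Mat K) :
    grp_Phi K (p • M) = (p : PowerSeries K) • grp_Phi K M := by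
  ext i j s
  simp [grp_Phi]

theorem grp_coe_one_add_X : (((1 + X : K[X])) : PowerSeries K) = 1 + PowerSeries.X := by
  simp

/-- the unit given by `θ_x` -/
noncomputable def grp_u (φ : K ≃+* K) (x : K)
    (h1 : th φ x * ad φ x = (1 + X : K[X]) • (1 : Mat K))
    (h2 : ad φ x * th φ x = (1 + X : K[X]) • (1 : Mat K)) : (PMat K)ˣ where
  val := grp_Phi K (th φ x)
  inv := ((grp_e K)⁻¹ : (PowerSeries K)ˣ).val • grp_Phi K (ad φ x)
  val_inv := by
    rw [mul_smul_comm, ← map_mul, h1, grp_Phi_smul, map_one, smul_smul, grp_coe_one_add_X,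
      ← grp_e_val, Units.inv_mul, one_smul]
  inv_val := by
    rw [smul_mul_assoc, ← map_mul, h2, grp_Phi_smul, map_one, smul_smul, grp_coe_one_add_X,
      ← grp_e_val, Units.inv_mul, one_smul]

/-- the ring homomorphism `φ` on matrices of power series -/
noncomputable def grp_S (φ : K ≃+* K) : PMat K →+* PMat K :=
  (PowerSeries.map (fr φ 2)).mapMatrix

theorem grp_circ_iff (φ : K ≃+* K) (M : PMat K) : Circ φ M ↔ grp_S φ M * Zp = Zp * M := Iff.rfl

theorem grp_circ_mul {φ : K ≃+* K} {M N : PMat K} (hM : Circ φ M) (hN : Circ φ N) :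
    Circ φ (M * N) := by
  rw [grp_circ_iff] at *
  rw [map_mul, mul_assoc, hN, ← mul_assoc, hM, mul_assoc]

theorem grp_circ_inv {φ : K ≃+* K} {u : (PMat K)ˣ} (hM : Circ φ u.val) :
    Circ φ (u⁻¹ : (PMat K)ˣ).val := by
  rw [grp_circ_iff] at *
  have h1 : grp_S φ (u⁻¹ : (PMat K)ˣ).val * grp_S φ u.val = 1 := by
    rw [← map_mul, Units.inv_mul, map_one]
  calc grp_S φ (u⁻¹ : (PMat K)ˣ).val * Zp
      = grp_S φ (u⁻¹ : (PMat K)ˣ).val * (Zp * (u.val * (u⁻¹ : (PMat K)ˣ).val)) := by
        rw [Units.mul_inv, mul_one]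
    _ = grp_S φ (u⁻¹ : (PMat K)ˣ).val * ((Zp * u.val) * (u⁻¹ : (PMat K)ˣ).val) := by
        rw [mul_assoc Zp]
    _ = (grp_S φ (u⁻¹ : (PMat K)ˣ).val * grp_S φ u.val) * (Zp * (u⁻¹ : (PMat K)ˣ).val) := by
        rw [← hM, mul_assoc, mul_assoc]
    _ = _ := by rw [h1, one_mul]

theorem grp_Zp : grp_Phi K (Zm : Mat K) = Zp := by
  ext i j s
  rw [grp_Phi_coeff]
  fin_cases i <;> fin_cases j <;> simp [Zm, Zp, Polynomial.coeff_X, PowerSeries.coeff_X,
    Polynomial.coeff_one, PowerSeries.coeff_one, eq_comm]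

theorem grp_S_Phi (φ : K ≃+* K) (M : Mat K) :
    grp_S φ (grp_Phi K M) = grp_Phi K (M.map (Polynomial.map (fr φ 2))) := by
  ext i j s
  rw [grp_Phi_coeff]
  simp [grp_S, grp_Phi]

theorem grp_circ_th {φ : K ≃+* K} {M : Mat K}
    (h : M.map (Polynomial.map (fr φ 2)) * Zm = Zm * M) : Circ φ (grp_Phi K M) := by
  rw [grp_circ_iff, grp_S_Phi, ← grp_Zp, ← map_mul, h, map_mul]

theorem grp_gprod_map {Q R A : Type} [Group Q] [Group R] (f : Q →* R) (t : A → Q) (a b : ℕ → A)
    (j : ℕ) : gprod (fun x => f (t x)) a b j = f (gprod t a b j) := by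
  induction j with
  | zero => simp [gprod]
  | succ j ih => simp only [gprod]; rw [ih, map_mul, map_mul, map_inv]

theorem grp_filp_smul {d : ℕ} {M : PMat K} (h : Filp d M) (p : PowerSeries K) :
    Filp d (p • M) := by
  intro i j s hs
  rw [Matrix.smul_apply, smul_eq_mul, PowerSeries.coeff_mul]
  apply Finset.sum_eq_zero
  intro x hx
  rw [Finset.HasAntidiagonal.mem_antidiagonal] at hx
  rw [h i j x.2 (by omega), mul_zero]

theorem grp_gprod_shift {Q A : Type} [Group Q] (u : A → Q) (c : Q) (a b : ℕ → A)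
    (j : ℕ) : gprod (fun x => u x * c⁻¹) a b j = gprod u a b j := by
  induction j with
  | zero => simp [gprod]
  | succ j ih => simp only [gprod]; rw [ih]; group

theorem grp_det {φ : K ≃+* K} {x : K} (h : (th φ x).det = 1 + X) :
    (grp_Phi K (th φ x)).det = 1 + PowerSeries.X := by
  have h1 := RingHom.map_det (Polynomial.coeToPowerSeries.ringHom (R := K)) (th φ x)
  rw [h] at h1
  show ((Polynomial.coeToPowerSeries.ringHom (R := K)).mapMatrix (th φ x)).det = _
  rw [← h1]
  simp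

theorem grp_val (φ : K ≃+* K) {A : Type} (f : A → K)
    (h1 : ∀ x, th φ (f x) * ad φ (f x) = (1 + X : K[X]) • (1 : Mat K))
    (h2 : ∀ x, ad φ (f x) * th φ (f x) = (1 + X : K[X]) • (1 : Mat K)) (a b : ℕ → A) (j : ℕ) :
    (1 + PowerSeries.X : PowerSeries K) ^ j •
      (gprod (fun x => grp_u φ (f x) (h1 x) (h2 x)) a b j).val =
      grp_Phi K (wd φ (fun i => f (a i)) (fun i => f (b i)) j) := by
  induction j with
  | zero => simp [gprod, wd]
  | succ j ih =>
    simp only [gprod, wd]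
    rw [Units.val_mul, Units.val_mul, map_mul, map_mul, ← ih]
    have h3 : ((grp_u φ (f (b j)) (h1 (b j)) (h2 (b j)))⁻¹ : (PMat K)ˣ).val =
        ((grp_e K)⁻¹ : (PowerSeries K)ˣ).val • grp_Phi K (ad φ (f (b j))) := rfl
    have h4 : (grp_u φ (f (a j)) (h1 (a j)) (h2 (a j))).val = grp_Phi K (th φ (f (a j))) := rfl
    rw [h3, h4, mul_smul_comm, mul_smul_comm, smul_smul, smul_mul_assoc, pow_succ, mul_assoc,
      ← grp_e_val, Units.mul_inv, mul_one]

theorem st_GRP (hMAT : ST_MATA) (hREL : ST_REL) (hIDX : ST_IDX) : ST_GRP := by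
  intro K _ _ φ hφ d hd
  obtain ⟨G, hG, hGd⟩ := hIDX K φ hφ
  obtain ⟨Nd, hNn, hN, hNi, hNb⟩ := hGd d hd
  have hfin : Finite (G ⧸ Nd) := Nat.finite_of_card_ne_zero hNi
  by_cases hne : Nonempty (XS φ)
  · obtain ⟨x0⟩ := hne
    have hM := fun (b : XS φ) => hMAT K φ hφ b.1 b.2
    let u : XS φ → (PMat K)ˣ := fun b => grp_u φ b.1 (hM b).1 (hM b).2.1
    have hdet : ∀ b, (u b).val.det = 1 + PowerSeries.X := fun b => grp_det (hM b).2.2.1
    have hcirc : ∀ b, Circ φ (u b).val := fun b => grp_circ_th (hM b).2.2.2.2.1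
    have hmem : ∀ b, u b * (u x0)⁻¹ ∈ G := by
      intro b
      rw [hG]
      constructor
      · rw [Units.val_mul]
        exact grp_circ_mul (hcirc b) (grp_circ_inv (hcirc x0))
      · have h1 : (u b * (u x0)⁻¹).val * (u x0).val = (u b).val := by
          rw [← Units.val_mul, inv_mul_cancel_right]
        have h2 := congrArg Matrix.det h1
        rw [Matrix.det_mul, hdet, hdet] at h2
        exact (grp_unit K).mul_right_cancel (h2.trans (one_mul _).symm)
    let tg : XS φ → G := fun b => ⟨u b * (u x0)⁻¹, hmem b⟩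
    refine ⟨G ⧸ Nd, inferInstance, hfin, fun b => QuotientGroup.mk' Nd (tg b), hNb, ?_⟩
    intro a b j hj1 hj2 hred hone
    rw [grp_gprod_map (QuotientGroup.mk' Nd) tg a b j] at hone
    have h1 : gprod tg a b j ∈ Nd := by
      rw [QuotientGroup.mk'_apply, QuotientGroup.eq_one_iff] at hone
      exact hone
    rw [hN] at h1
    have h2 : (gprod tg a b j).val = gprod u a b j := by
      have h3 := grp_gprod_map G.subtype tg a b j
      rw [← Subgroup.subtype_apply, ← h3]
      exact grp_gprod_shift u (u x0) a b j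
    rw [h2] at h1
    have h4 := grp_filp_smul h1 ((1 + PowerSeries.X : PowerSeries K) ^ j)
    rw [smul_sub, grp_val φ (fun x : XS φ => x.1) (fun x => (hM x).1) (fun x => (hM x).2.1) a b j]
      at h4
    have h5 : (1 + PowerSeries.X : PowerSeries K) ^ j • (1 : PMat K) =
        grp_Phi K (((1 + X : K[X]) ^ j) • (1 : Mat K)) := by
      rw [grp_Phi_smul, map_one]
      congr 1
      simp
    rw [h5, ← map_sub] at h4
    have h6 := hREL K φ hφ (fun i => (a i).1) (fun i => (b i).1) (fun i => (a i).2)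
      (fun i => (b i).2) d j hj1 hj2
      ⟨fun i hi h => hred.1 i hi (Subtype.ext h), fun i hi h => hred.2 i hi (Subtype.ext h)⟩
    apply h6
    intro r c s hs
    rw [← grp_Phi_coeff]
    exact h4 r c s hs
  · refine ⟨G ⧸ Nd, inferInstance, hfin, fun _ => 1, hNb, ?_⟩
    intro a
    exact absurd ⟨a 0⟩ hne

end Pool.Agent.Helper51.GT
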