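import Pool.Agent.Helper51.GT.Defs

/-!
# ORD: order of the determinant
-/

set_option autoImplicit false

namespace Pool.Agent.Helper51.GT

open Polynomial

theorem ord_mul {K : Type} [Field K] {p q : K[X]} {d₁ i₁ j₁ d₂ i₂ j₂ : ℕ}
    (h₁ : ∀ s, 4 * s + j₁ < d₁ + i₁ → p.coeff s = 0)
    (h₂ : ∀ s, 4 * s + j₂ < d₂ + i₂ → q.coeff s = 0) (s : ℕ)
    (hs : 4 * s + (j₁ + j₂) < (d₁ + d₂) + (i₁ + i₂)) : (p * q).coeff s = 0 := by
  rw [coeff_mul]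
  refine Finset.sum_eq_zero fun x hx => ?_
  rw [Finset.HasAntidiagonal.mem_antidiagonal] at hx
  by_cases h : 4 * x.1 + j₁ < d₁ + i₁
  · rw [h₁ _ h, zero_mul]
  · rw [h₂ x.2 (by omega), mul_zero]

theorem st_ORD : ST_ORD := by
  intro K _ d s M hM hs
  rw [Matrix.det_apply, finsetSum_coeff]
  refine Finset.sum_eq_zero fun τ _ => ?_
  have h1 : (∏ i, M (τ i) i).coeff s = 0 := by
    rw [Fin.prod_univ_four]
    refine ord_mul (ord_mul (ord_mul (hM (τ 0) 0) (hM (τ 1) 1)) (hM (τ 2) 2)) (hM (τ 3) 3) s ?_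
    have h2 : ∑ i : Fin 4, ((τ i : Fin 4) : ℕ) = ∑ i : Fin 4, (i : ℕ) :=
      Equiv.sum_comp τ (fun i : Fin 4 => (i : ℕ))
    rw [Fin.sum_univ_four, Fin.sum_univ_four] at h2
    omega
  rw [Units.smul_def, coeff_smul, h1, smul_zero]

end Pool.Agent.Helper51.GT
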