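import Pool.Agent.Helper51.GT.Defs

/-! # RNK: reduced words are of rank one modulo `(1+X)^j`, and do not vanish at `X = 1` -/

set_option autoImplicit false

namespace Pool.Agent.Helper51.GT

open Polynomial

section

variable {K : Type} [Field K] {φ : K ≃+* K}

theorem rnk_eval_pi (two : (2 : K) = 0) : (1 + X : K[X]).eval 1 = 0 := by
  rw [eval_add, eval_one, eval_X, one_add_one_eq_two, two]

theorem rnk_dvd (two : (2 : K) = 0) {f : K[X]} (h : f.eval 1 = 0) : (1 + X : K[X]) ∣ f := by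
  have h1 : (X - C (1 : K)) ∣ f := dvd_iff_isRoot.2 h
  have h2 : (1 + X : K[X]) = X - C (1 : K) := by
    have h3 : (C (2 : K)) = 0 := by rw [two, map_zero]
    have h4 : (C (2 : K)) = 2 := map_ofNat C 2
    rw [h4] at h3
    rw [map_one]
    linear_combination h3
  rw [h2]
  exact h1

theorem rnk_fr0 (x : K) : fr φ 0 x = x := by
  unfold fr
  rw [pow_zero]
  rfl

/-- the decomposition of one letter -/
theorem rnk_letter (hEV : ST_EV) (h : Dat φ) {a b : K} (ha : a ∈ XS φ) (hb : b ∈ XS φ) :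
    ∃ T : Mat K, ∀ r c : Fin 4, (th φ a * ad φ b) r c =
      C (fr φ (2 * (r : ℕ)) (gm φ a b)) * C (fr φ (2 * (c : ℕ)) (bt φ b)) + (1 + X) * T r c := by
  have h1 : ∀ r c : Fin 4, ∃ t : K[X], (th φ a * ad φ b) r c =
      C (fr φ (2 * (r : ℕ)) (gm φ a b)) * C (fr φ (2 * (c : ℕ)) (bt φ b)) + (1 + X) * t := by
    intro r c
    have h2 : ((th φ a * ad φ b) r c -
        C (fr φ (2 * (r : ℕ)) (gm φ a b)) * C (fr φ (2 * (c : ℕ)) (bt φ b))).eval 1 = 0 := by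
      rw [eval_sub, eval_mul, eval_C, eval_C, hEV K φ h a ha b hb r c, sub_self]
    obtain ⟨t, ht⟩ := rnk_dvd h.two h2
    exact ⟨t, by rw [← ht]; ring⟩
  choose T hT using h1
  exact ⟨Matrix.of T, fun r c => hT r c⟩

theorem rnk_word (hEV : ST_EV) (hPAIR : ST_PAIR) (hNDA : ST_NDA) (hNDB : ST_NDB) (h : Dat φ)
    {a b : ℕ → K} (ha : ∀ i, a i ∈ XS φ) (hb : ∀ i, b i ∈ XS φ) (j : ℕ)
    (hr : Red a b (j + 1)) :
    ∃ (u v : Fin 4 → K[X]) (S : Mat K) (k : K), k ≠ 0 ∧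
      (∀ r c : Fin 4, wd φ a b (j + 1) r c = u r * v c + (1 + X : K[X]) ^ (j + 1) * S r c) ∧
      (∃ r, (u r).eval 1 ≠ 0) ∧ ∀ s : Fin 4, (v s).eval 1 = k * fr φ (2 * (s : ℕ)) (bt φ (b j)) := by
  induction j with
  | zero =>
    obtain ⟨T, hT⟩ := rnk_letter hEV h (ha 0) (hb 0)
    refine ⟨fun r => C (fr φ (2 * (r : ℕ)) (gm φ (a 0) (b 0))),
      fun s => C (fr φ (2 * (s : ℕ)) (bt φ (b 0))), T, 1, one_ne_zero, ?_, ⟨0, ?_⟩, ?_⟩
    · intro r c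
      have e : wd φ a b (0 + 1) = th φ (a 0) * ad φ (b 0) := by
        show (1 : Mat K) * (th φ (a 0) * ad φ (b 0)) = th φ (a 0) * ad φ (b 0)
        rw [one_mul]
      rw [e, hT r c, zero_add, pow_one]
    · rw [eval_C]
      show fr φ 0 (gm φ (a 0) (b 0)) ≠ 0
      rw [rnk_fr0]
      exact (hNDA K φ h (a 0) (ha 0) (b 0) (hb 0) (hr.1 0 (by omega))).2
    · intro s
      rw [eval_C, one_mul]
  | succ j ih =>
    obtain ⟨u, v, S, k, hk, hw, ⟨r0, hu⟩, hv⟩ :=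
      ih ⟨fun i hi => hr.1 i (by omega), fun i hi => hr.2 i (by omega)⟩
    obtain ⟨T, hT⟩ := rnk_letter hEV h (ha (j + 1)) (hb (j + 1))
    set g : Fin 4 → K[X] := fun r => C (fr φ (2 * (r : ℕ)) (gm φ (a (j + 1)) (b (j + 1)))) with hg
    set e : Fin 4 → K[X] := fun s => C (fr φ (2 * (s : ℕ)) (bt φ (b (j + 1)))) with he
    set c0 : K := k * tr4 φ (bt φ (b j) * gm φ (a (j + 1)) (b (j + 1))) with hc0
    have hc0ne : c0 ≠ 0 := by
      rw [hc0, hPAIR K φ h (a (j + 1)) (ha _) (b j) (hb _) (b (j + 1)) (hb _)]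
      refine mul_ne_zero hk (mul_ne_zero ?_ ?_)
      · exact hNDB K φ h (a (j + 1)) (ha _) (b j) (hb _) (fun hh => hr.2 j (by omega) hh.symm)
      · exact (hNDA K φ h (a (j + 1)) (ha _) (b (j + 1)) (hb _) (hr.1 (j + 1) (by omega))).1
    have hvg : ((v 0 * g 0 + v 1 * g 1 + v 2 * g 2 + v 3 * g 3) - C c0).eval 1 = 0 := by
      simp only [eval_sub, eval_add, eval_mul, eval_C, hv, hg]
      rw [hc0, tr4]
      simp only [map_mul]
      have e0 : fr φ (2 * ((0 : Fin 4) : ℕ)) = fr φ 0 := rfl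
      have e1 : fr φ (2 * ((1 : Fin 4) : ℕ)) = fr φ 2 := rfl
      have e2 : fr φ (2 * ((2 : Fin 4) : ℕ)) = fr φ 4 := rfl
      have e3 : fr φ (2 * ((3 : Fin 4) : ℕ)) = fr φ 6 := rfl
      rw [e0, e1, e2, e3, rnk_fr0, rnk_fr0]
      ring
    obtain ⟨q, hq⟩ := rnk_dvd h.two hvg
    have hcc : C c0 * C c0⁻¹ = (1 : K[X]) := by
      rw [← C_mul, mul_inv_cancel₀ hc0ne, C_1]
    refine ⟨fun r => u r + (1 + X) ^ (j + 1) * (C c0⁻¹ * (S r 0 * g 0 + S r 1 * g 1 + S r 2 * g 2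
        + S r 3 * g 3)),
      fun c => (v 0 * g 0 + v 1 * g 1 + v 2 * g 2 + v 3 * g 3) * e c +
        (1 + X) * (v 0 * T 0 c + v 1 * T 1 c + v 2 * T 2 c + v 3 * T 3 c),
      Matrix.of fun r c => (S r 0 * T 0 c + S r 1 * T 1 c + S r 2 * T 2 c + S r 3 * T 3 c) -
        C c0⁻¹ * (S r 0 * g 0 + S r 1 * g 1 + S r 2 * g 2 + S r 3 * g 3) *
          (q * e c + (v 0 * T 0 c + v 1 * T 1 c + v 2 * T 2 c + v 3 * T 3 c)),
      c0, hc0ne, ?_, ⟨r0, ?_⟩, ?_⟩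
    · intro r c
      have e : wd φ a b (j + 1 + 1) = wd φ a b (j + 1) * (th φ (a (j + 1)) * ad φ (b (j + 1))) :=
        rfl
      rw [e, Matrix.mul_apply, Fin.sum_univ_four, hw r 0, hw r 1, hw r 2, hw r 3, hT 0 c, hT 1 c,
        hT 2 c, hT 3 c, Matrix.of_apply]
      linear_combination (-(C c0⁻¹) * (1 + X) ^ (j + 1) *
        (S r 0 * g 0 + S r 1 * g 1 + S r 2 * g 2 + S r 3 * g 3) * C (fr φ (2 * (c : ℕ)) (bt φ (b (j + 1))))) * hq -
        ((1 + X) ^ (j + 1) * (S r 0 * g 0 + S r 1 * g 1 + S r 2 * g 2 + S r 3 * g 3) *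
          C (fr φ (2 * (c : ℕ)) (bt φ (b (j + 1))))) * hcc
    · show (u r0 + (1 + X) ^ (j + 1) * (C c0⁻¹ * (S r0 0 * g 0 + S r0 1 * g 1 + S r0 2 * g 2
        + S r0 3 * g 3))).eval 1 ≠ 0
      rw [eval_add, eval_mul, eval_pow, rnk_eval_pi h.two, zero_pow (Nat.succ_ne_zero j), zero_mul,
        add_zero]
      exact hu
    · intro s
      have h1 : (v 0 * g 0 + v 1 * g 1 + v 2 * g 2 + v 3 * g 3).eval 1 = c0 := by
        have := hvg
        rw [eval_sub, eval_C, sub_eq_zero] at this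
        exact this
      show ((v 0 * g 0 + v 1 * g 1 + v 2 * g 2 + v 3 * g 3) * e s +
        (1 + X) * (v 0 * T 0 s + v 1 * T 1 s + v 2 * T 2 s + v 3 * T 3 s)).eval 1 = _
      rw [eval_add, eval_mul, h1, eval_mul, rnk_eval_pi h.two, zero_mul, add_zero]
      show c0 * (C (fr φ (2 * (s : ℕ)) (bt φ (b (j + 1))))).eval 1 = _
      rw [eval_C]

end

theorem st_RNK (hEV : ST_EV) (hPAIR : ST_PAIR) (hNDA : ST_NDA) (hNDB : ST_NDB) : ST_RNK := by
  intro K _ φ h a b ha hb j hj hr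
  obtain ⟨i, rfl⟩ : ∃ i, j = i + 1 := ⟨j - 1, by omega⟩
  obtain ⟨u, v, S, k, hk, hw, ⟨r0, hu⟩, hv⟩ := rnk_word hEV hPAIR hNDA hNDB h ha hb i hr
  refine ⟨⟨u, v, S, ?_⟩, r0, 0, ?_⟩
  · ext1 r c
    rw [hw r c, Matrix.add_apply, Matrix.vecMulVec_apply, Matrix.smul_apply, smul_eq_mul]
  · rw [hw r0 0, eval_add, eval_mul, eval_mul, eval_pow, rnk_eval_pi h.two,
      zero_pow (Nat.succ_ne_zero i), zero_mul, add_zero, hv 0]
    refine mul_ne_zero hu (mul_ne_zero hk ?_)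
    show fr φ 0 (bt φ (b i)) ≠ 0
    rw [rnk_fr0]
    have h1 := (hb i).1
    have hx : b i ≠ 0 := by
      intro h0
      rw [h0] at h1
      simp at h1
    unfold bt
    have hinj : ∀ n : ℕ, fr φ n (b i) ≠ 0 := fun n => (map_ne_zero_iff _ (RingHom.injective _)).2 hx
    exact mul_ne_zero (hinj 5) (inv_ne_zero (mul_ne_zero hx (hinj 2)))

end Pool.Agent.Helper51.GT
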